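import Pool.Agent.Run7.h932.DS.Stm

set_option autoImplicit false

/-!
# Piece SW of project DS (helper932): with positive probability there is no bad edge
-/

namespace Run7.h477.DS

open Finset Classical Run7.h932.DS

theorem sw_sw {m : ℕ} (π : Equiv.Perm (HE m)) (i j : Fin m) : sw (sw π i j) i j = π := by
  unfold sw
  rw [mul_assoc, Equiv.swap_mul_self, mul_one]

theorem bads_zero {n m : ℕ} (v : HE m → Fin n) (π : Equiv.Perm (HE m)) (L : ℕ) :
    (bads v π L).card = 0 ↔ Nice v π L := by
  unfold bads Nice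
  rw [Finset.card_eq_zero, Finset.filter_eq_empty_iff]
  simp

theorem mem_bads {n m : ℕ} (v : HE m → Fin n) (π : Equiv.Perm (HE m)) (L : ℕ) (j : Fin m) :
    j ∈ bads v π L ↔ Bad v π L j := by
  unfold bads
  simp

/-- The number of the permutations with `t` bad edges. -/
noncomputable def Bt {n m : ℕ} (v : HE m → Fin n) (L t : ℕ) : Finset (Equiv.Perm (HE m)) :=
  univ.filter fun π => (bads v π L).card = t

/-- The number of the permutations with at most `t` bad edges. -/
noncomputable def Wt {n m : ℕ} (v : HE m → Fin n) (L t : ℕ) : Finset (Equiv.Perm (HE m)) :=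
  univ.filter fun π => (bads v π L).card ≤ t

theorem step {n m L J C1 C2 : ℕ} (v : HE m → Fin n)
    (hfar : ∀ (π : Equiv.Perm (HE m)) (i : Fin m),
      (univ.filter fun j => ¬ Far v π (2 * L + 2) i j).card ≤ C1)
    (hfwd : ∀ (π : Equiv.Perm (HE m)) (i j : Fin m), Far v π (2 * L + 2) i j → ¬ Bad v π L j →
      ∀ e, Bad v (sw π i j) L e → e ≠ i ∧ Bad v π L e)
    (hrev : ∀ π' : Equiv.Perm (HE m), (univ.filter fun z : Fin m × Fin m =>
      Bad v (sw π' z.1 z.2) L z.1 ∧ Far v (sw π' z.1 z.2) (2 * L + 2) z.1 z.2).card ≤ C2 * m)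
    (hm : 2 * (C1 + J) < m) (t : ℕ) (htJ : t + 1 ≤ J) :
    (Bt v L (t + 1)).card ≤ 2 * C2 * (Wt v L t).card := by
  let T : Finset (Equiv.Perm (HE m) × (Fin m × Fin m)) := univ.filter fun x =>
    (bads v x.1 L).card = t + 1 ∧ Bad v x.1 L x.2.1 ∧ Far v x.1 (2 * L + 2) x.2.1 x.2.2 ∧
      ¬ Bad v x.1 L x.2.2
  let T' : Finset (Equiv.Perm (HE m) × (Fin m × Fin m)) := univ.filter fun x =>
    (bads v x.1 L).card ≤ t ∧ Bad v (sw x.1 x.2.1 x.2.2) L x.2.1 ∧
      Far v (sw x.1 x.2.1 x.2.2) (2 * L + 2) x.2.1 x.2.2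
  -- lower bound
  have hlow : (m - (C1 + J)) * (Bt v L (t + 1)).card ≤ T.card := by
    have hmaps : ∀ x ∈ T, x.1 ∈ Bt v L (t + 1) := by
      intro x hx
      have hx' := (Finset.mem_filter.mp hx).2
      unfold Bt
      exact Finset.mem_filter.mpr ⟨Finset.mem_univ _, hx'.1⟩
    have h1 := Finset.card_eq_sum_card_fiberwise (f := Prod.fst) (s := T)
      (t := Bt v L (t + 1)) hmaps
    rw [h1, mul_comm, ← smul_eq_mul, ← Finset.sum_const]
    apply Finset.sum_le_sum
    intro π hπ
    have hcard : (bads v π L).card = t + 1 := by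
      unfold Bt at hπ
      exact (Finset.mem_filter.mp hπ).2
    have hne : (bads v π L).Nonempty := by
      rw [← Finset.card_pos]; omega
    obtain ⟨i, hi⟩ := hne
    have hib : Bad v π L i := (mem_bads v π L i).1 hi
    let S : Finset (Fin m) := univ.filter fun j => Far v π (2 * L + 2) i j ∧ ¬ Bad v π L j
    have hS : m - (C1 + J) ≤ S.card := by
      have hun : (univ : Finset (Fin m)) ⊆
          S ∪ ((univ.filter fun j => ¬ Far v π (2 * L + 2) i j) ∪ bads v π L) := by
        intro j _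
        by_cases h1 : Far v π (2 * L + 2) i j
        · by_cases h2 : Bad v π L j
          · exact Finset.mem_union_right _ (Finset.mem_union_right _ ((mem_bads v π L j).2 h2))
          · exact Finset.mem_union_left _ (Finset.mem_filter.mpr ⟨Finset.mem_univ _, h1, h2⟩)
        · exact Finset.mem_union_right _ (Finset.mem_union_left _
            (Finset.mem_filter.mpr ⟨Finset.mem_univ _, h1⟩))
      have h3 := Finset.card_le_card hun
      have h4 := Finset.card_union_le S
        ((univ.filter fun j => ¬ Far v π (2 * L + 2) i j) ∪ bads v π L)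
      have h5 := Finset.card_union_le (univ.filter fun j => ¬ Far v π (2 * L + 2) i j)
        (bads v π L)
      have h6 := hfar π i
      rw [Finset.card_univ, Fintype.card_fin] at h3
      omega
    refine hS.trans ?_
    have hinj : Set.InjOn (fun j : Fin m => ((π, (i, j)) : Equiv.Perm (HE m) × (Fin m × Fin m)))
        (S : Set (Fin m)) := by
      intro a _ b _ hab
      simpa using hab
    rw [← Finset.card_image_of_injOn hinj]
    apply Finset.card_le_card
    intro x hx
    obtain ⟨j, hj, rfl⟩ := Finset.mem_image.mp hx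
    have hj' := (Finset.mem_filter.mp hj).2
    exact Finset.mem_filter.mpr ⟨Finset.mem_filter.mpr
      ⟨Finset.mem_univ _, hcard, hib, hj'.1, hj'.2⟩, rfl⟩
  -- the map
  have hmid : T.card ≤ T'.card := by
    apply Finset.card_le_card_of_injOn
      (fun x : Equiv.Perm (HE m) × (Fin m × Fin m) => (sw x.1 x.2.1 x.2.2, x.2))
    · intro x hx
      have hx' := (Finset.mem_filter.mp hx).2
      obtain ⟨hc, hb, hf, hnb⟩ := hx'
      have hfw := hfwd x.1 x.2.1 x.2.2 hf hnb
      refine Finset.mem_filter.mpr ⟨Finset.mem_univ _, ?_, ?_, ?_⟩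
      · show (bads v (sw x.1 x.2.1 x.2.2) L).card ≤ t
        have hsub : bads v (sw x.1 x.2.1 x.2.2) L ⊆ (bads v x.1 L).erase x.2.1 := by
          intro e he
          have he' := hfw e ((mem_bads _ _ _ _).1 he)
          exact Finset.mem_erase.mpr ⟨he'.1, (mem_bads _ _ _ _).2 he'.2⟩
        have h1 := Finset.card_le_card hsub
        rw [Finset.card_erase_of_mem ((mem_bads _ _ _ _).2 hb), hc] at h1
        omega
      · show Bad v (sw (sw x.1 x.2.1 x.2.2) x.2.1 x.2.2) L x.2.1
        rw [sw_sw]; exact hb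
      · show Far v (sw (sw x.1 x.2.1 x.2.2) x.2.1 x.2.2) (2 * L + 2) x.2.1 x.2.2
        rw [sw_sw]; exact hf
    · intro x _ y _ hxy
      have hxy' : (sw x.1 x.2.1 x.2.2, x.2) = (sw y.1 y.2.1 y.2.2, y.2) := hxy
      have h1 := (Prod.mk.inj hxy').1
      have h2 := (Prod.mk.inj hxy').2
      have h3 : x.1 = y.1 := by
        rw [← sw_sw x.1 x.2.1 x.2.2, h1, h2, sw_sw]
      exact Prod.ext h3 h2
  -- upper bound
  have hup : T'.card ≤ (C2 * m) * (Wt v L t).card := by
    have hmaps : ∀ x ∈ T', x.1 ∈ Wt v L t := by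
      intro x hx
      have hx' := (Finset.mem_filter.mp hx).2
      unfold Wt
      exact Finset.mem_filter.mpr ⟨Finset.mem_univ _, hx'.1⟩
    have h1 := Finset.card_eq_sum_card_fiberwise (f := Prod.fst) (s := T')
      (t := Wt v L t) hmaps
    rw [h1, mul_comm, ← smul_eq_mul, ← Finset.sum_const]
    apply Finset.sum_le_sum
    intro π _
    refine le_trans ?_ (hrev π)
    apply Finset.card_le_card_of_injOn Prod.snd
    · intro x hx
      have hx1 := (Finset.mem_filter.mp hx).2
      have hx2 := (Finset.mem_filter.mp (Finset.mem_filter.mp hx).1).2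
      rw [← hx1]
      exact Finset.mem_filter.mpr ⟨Finset.mem_univ _, hx2.2⟩
    · intro x hx y hy hxy
      have hx1 := (Finset.mem_filter.mp hx).2
      have hy1 := (Finset.mem_filter.mp hy).2
      exact Prod.ext (hx1.trans hy1.symm) hxy
  have hall := (hlow.trans hmid).trans hup
  have hm2 : m ≤ 2 * (m - (C1 + J)) := by omega
  have hmpos : 0 < m := by omega
  have h7 : m * (Bt v L (t + 1)).card ≤ m * (2 * C2 * (Wt v L t).card) := by
    calc m * (Bt v L (t + 1)).card ≤ 2 * (m - (C1 + J)) * (Bt v L (t + 1)).card :=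
          Nat.mul_le_mul_right _ hm2
      _ = 2 * ((m - (C1 + J)) * (Bt v L (t + 1)).card) := by ring
      _ ≤ 2 * (C2 * m * (Wt v L t).card) := Nat.mul_le_mul_left _ hall
      _ = m * (2 * C2 * (Wt v L t).card) := by ring
  exact Nat.le_of_mul_le_mul_left h7 hmpos

theorem Wt_succ {n m : ℕ} (v : HE m → Fin n) (L t : ℕ) :
    (Wt v L (t + 1)).card ≤ (Wt v L t).card + (Bt v L (t + 1)).card := by
  refine le_trans (Finset.card_le_card ?_) (Finset.card_union_le _ _)
  intro π hπ
  unfold Wt at hπ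
  have h := (Finset.mem_filter.mp hπ).2
  by_cases h1 : (bads v π L).card ≤ t
  · apply Finset.mem_union_left
    unfold Wt
    exact Finset.mem_filter.mpr ⟨Finset.mem_univ _, h1⟩
  · apply Finset.mem_union_right
    unfold Bt
    exact Finset.mem_filter.mpr ⟨Finset.mem_univ _, by omega⟩

theorem card_perm' (m : ℕ) : Fintype.card (Equiv.Perm (HE m)) = (2 * m).factorial := by
  rw [Fintype.card_perm, Fintype.card_prod, Fintype.card_fin, Fintype.card_bool, mul_comm]

theorem half {n m L C : ℕ} (v : HE m → Fin n)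
    (h : ∑ π : Equiv.Perm (HE m), (bads v π L).card ≤ C * (2 * m).factorial) :
    (2 * m).factorial ≤ 2 * (Wt v L (2 * C)).card := by
  let R : Finset (Equiv.Perm (HE m)) := univ.filter fun π => ¬ (bads v π L).card ≤ 2 * C
  have h1 : (Wt v L (2 * C)).card + R.card = (2 * m).factorial := by
    rw [← card_perm' m, ← Finset.card_univ]
    unfold Wt
    exact Finset.card_filter_add_card_filter_not (s := univ)
      (fun π : Equiv.Perm (HE m) => (bads v π L).card ≤ 2 * C)
  have h2 : R.card * (2 * C + 1) ≤ C * (2 * m).factorial := by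
    refine le_trans ?_ h
    calc R.card * (2 * C + 1) = ∑ _π ∈ R, (2 * C + 1) := by
          rw [Finset.sum_const, smul_eq_mul]
      _ ≤ ∑ π ∈ R, (bads v π L).card := by
          apply Finset.sum_le_sum
          intro π hπ
          have := (Finset.mem_filter.mp hπ).2
          omega
      _ ≤ ∑ π : Equiv.Perm (HE m), (bads v π L).card :=
          Finset.sum_le_sum_of_subset (Finset.subset_univ R)
  have h3 : 2 * R.card ≤ (2 * m).factorial := by
    by_contra hlt
    push Not at hlt
    nlinarith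
  omega

theorem iter {n m L J C2 : ℕ} (v : HE m → Fin n)
    (hs : ∀ t, t + 1 ≤ J → (Bt v L (t + 1)).card ≤ 2 * C2 * (Wt v L t).card) :
    ∀ t ≤ J, (Wt v L t).card ≤ (1 + 2 * C2) ^ t * (Wt v L 0).card := by
  intro t
  induction t with
  | zero => intro _; simp
  | succ t ih =>
    intro ht
    have h1 := ih (by omega)
    have h2 := hs t ht
    have h3 := Wt_succ v L t
    calc (Wt v L (t + 1)).card ≤ (Wt v L t).card + (Bt v L (t + 1)).card := h3
      _ ≤ (Wt v L t).card + 2 * C2 * (Wt v L t).card := by omega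
      _ = (1 + 2 * C2) * (Wt v L t).card := by ring
      _ ≤ (1 + 2 * C2) * ((1 + 2 * C2) ^ t * (Wt v L 0).card) := Nat.mul_le_mul_left _ h1
      _ = (1 + 2 * C2) ^ (t + 1) * (Wt v L 0).card := by ring

/-- Piece SW. -/
theorem t_SW (hFAR : S_FAR) (hFWD : S_FWD) (hREV : S_REV) (hEXP : S_EXP) : S_SW := by
  intro L Δ
  obtain ⟨C1, hC1⟩ := hFAR Δ (2 * L + 2)
  obtain ⟨C2, hC2⟩ := hREV L Δ
  obtain ⟨C3, m₁, hC3⟩ := hEXP L Δ
  refine ⟨1 / (2 * (1 + 2 * (C2 : ℝ)) ^ (2 * C3)), max m₁ (2 * (C1 + 2 * C3) + 1),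
    by positivity, ?_⟩
  intro n m v hm hv
  have hm1 : m₁ ≤ m := le_trans (le_max_left _ _) hm
  have hm2 : 2 * (C1 + 2 * C3) < m := lt_of_lt_of_le (Nat.lt_succ_self _)
    (le_trans (le_max_right _ _) hm)
  have hs : ∀ t, t + 1 ≤ 2 * C3 → (Bt v L (t + 1)).card ≤ 2 * C2 * (Wt v L t).card := by
    intro t ht
    exact step v (fun π i => (hC1 n m v π hv).2 i) (fun π i j => hFWD n m L v π i j)
      (fun π' => hC2 n m v π' hv) hm2 t ht
  have h1 := iter v hs (2 * C3) le_rfl
  have h2 := half v (hC3 n m v hm1 hv)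
  have h3 : (Wt v L 0).card = (univ.filter fun π : Equiv.Perm (HE m) => Nice v π L).card := by
    unfold Wt
    congr 1
    apply Finset.filter_congr
    intro π _
    rw [Nat.le_zero, bads_zero]
  have h4 : (2 * m).factorial ≤ 2 * ((1 + 2 * C2) ^ (2 * C3) *
      (univ.filter fun π : Equiv.Perm (HE m) => Nice v π L).card) := by
    rw [← h3]; omega
  have h5 : ((2 * m).factorial : ℝ) ≤ 2 * ((1 + 2 * (C2 : ℝ)) ^ (2 * C3) *
      ((univ.filter fun π : Equiv.Perm (HE m) => Nice v π L).card : ℝ)) := by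
    exact_mod_cast h4
  have hpos : (0 : ℝ) < 2 * (1 + 2 * (C2 : ℝ)) ^ (2 * C3) := by positivity
  rw [one_div, inv_mul_le_iff₀ hpos]
  calc ((2 * m).factorial : ℝ) ≤ _ := h5
    _ = _ := by ring

end Run7.h477.DS
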